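import Mathlib

/-!
Weighted trigonometric sums on a circle, with a weight of high frequency.
-/

namespace H731WI

open MeasureTheory Complex Finset

/-- the weighted Fourier integral -/
noncomputable def J (K : ℝ → ℝ) (n : ℕ) (k : ℤ) : ℂ :=
  ∫ θ in (0:ℝ)..(2 * Real.pi), exp (k * θ * I) * (K (n * θ) : ℂ)

theorem J_eq_zero {K : ℝ → ℝ} (hper : Function.Periodic K (2 * Real.pi))
    {n : ℕ} (hn : 0 < n) {k : ℤ} (hk : ¬ (n : ℤ) ∣ k) : J K n k = 0 := by
  set F : ℝ → ℂ := fun θ => exp (k * θ * I) * (K (n * θ) : ℂ) with hF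
  have hnr : (n : ℝ) ≠ 0 := by positivity
  have hnc : (n : ℂ) ≠ 0 := by exact_mod_cast hn.ne'
  have hshift : ∀ θ, F (θ + 2 * Real.pi / n) = exp (2 * Real.pi * I * (k / n)) * F θ := by
    intro θ
    simp only [hF]
    have h1 : (n : ℝ) * (θ + 2 * Real.pi / n) = n * θ + 2 * Real.pi := by
      field_simp
    rw [h1, hper, ← mul_assoc, ← Complex.exp_add]
    congr 2
    push_cast
    field_simp
    ring
  have hFper : Function.Periodic F (2 * Real.pi) := by
    intro θ
    simp only [hF]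
    have h1 : (n : ℝ) * (θ + 2 * Real.pi) = n * θ + n * (2 * Real.pi) := by ring
    have h2 : K (n * θ + n * (2 * Real.pi)) = K (n * θ) := by
      have := hper.nat_mul n
      exact this _
    rw [h1, h2]
    congr 1
    rw [Complex.exp_eq_exp_iff_exists_int]
    refine ⟨k, ?_⟩
    push_cast
    ring
  have h3 : (∫ θ in (0:ℝ)..(2 * Real.pi), F (θ + 2 * Real.pi / n)) =
      ∫ θ in (0:ℝ)..(2 * Real.pi), F θ := by
    rw [intervalIntegral.integral_comp_add_right]
    have := hFper.intervalIntegral_add_eq (0 + 2 * Real.pi / n) 0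
    simp only [zero_add] at this ⊢
    rw [add_comm (2 * Real.pi) (2 * Real.pi / n)]
    exact this
  have h4 : (∫ θ in (0:ℝ)..(2 * Real.pi), F (θ + 2 * Real.pi / n)) =
      exp (2 * Real.pi * I * (k / n)) * ∫ θ in (0:ℝ)..(2 * Real.pi), F θ := by
    rw [← intervalIntegral.integral_const_mul]
    refine intervalIntegral.integral_congr fun θ _ => ?_
    exact hshift θ
  have h5 : exp (2 * Real.pi * I * (k / n)) ≠ 1 := by
    intro h
    rw [Complex.exp_eq_one_iff] at h
    obtain ⟨m, hm⟩ := h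
    apply hk
    have h2 : (2 * Real.pi * I : ℂ) ≠ 0 := Complex.two_pi_I_ne_zero
    have h6 : (k : ℂ) / n = m := by
      apply mul_left_cancel₀ h2
      rw [hm]; ring
    rw [div_eq_iff hnc] at h6
    refine ⟨m, ?_⟩
    have : (k : ℂ) = ((n * m : ℤ) : ℂ) := by push_cast; rw [h6]; ring
    exact_mod_cast this
  rw [h3] at h4
  have h6 : (1 - exp (2 * Real.pi * I * (k / n))) * ∫ θ in (0:ℝ)..(2 * Real.pi), F θ = 0 := by
    rw [sub_mul, one_mul, ← h4, sub_self]
  rcases mul_eq_zero.mp h6 with h | h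
  · exact absurd (sub_eq_zero.mp h).symm h5
  · exact h

/-- the total mass -/
noncomputable def mass (K : ℝ → ℝ) (n : ℕ) : ℝ := ∫ θ in (0:ℝ)..(2 * Real.pi), K (n * θ)

theorem J_zero (K : ℝ → ℝ) (n : ℕ) : J K n 0 = (mass K n : ℂ) := by
  unfold J mass
  rw [← intervalIntegral.integral_ofReal]
  simp

theorem norm_J_le {K : ℝ → ℝ} (h0 : ∀ x, 0 ≤ K x) (n : ℕ) (k : ℤ) :
    ‖J K n k‖ ≤ mass K n := by
  unfold J mass
  refine (intervalIntegral.norm_integral_le_integral_norm (by positivity)).trans ?_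
  apply le_of_eq
  refine intervalIntegral.integral_congr fun θ _ => ?_
  have : (k : ℂ) * θ * I = ((k * θ : ℝ) : ℂ) * I := by push_cast; ring
  simp only [norm_mul, this, Complex.norm_exp_ofReal_mul_I, one_mul]
  rw [Complex.norm_real, Real.norm_eq_abs, abs_of_nonneg (h0 _)]

/-- trigonometric sum -/
noncomputable def T (S : Finset ℕ) (b : ℕ → ℂ) (θ : ℝ) : ℂ := ∑ k ∈ S, b k * exp (k * θ * I)

theorem continuous_T (S : Finset ℕ) (b : ℕ → ℂ) : Continuous (T S b) := by
  unfold T; fun_prop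

theorem form_eq (S : Finset ℕ) (b : ℕ → ℂ) {K : ℝ → ℝ} (hK : Continuous K) (n : ℕ) :
    ((∫ θ in (0:ℝ)..(2 * Real.pi), ‖T S b θ‖ ^ 2 * K (n * θ) : ℝ) : ℂ) =
      ∑ k ∈ S, ∑ l ∈ S, b k * (starRingEnd ℂ) (b l) * J K n ((k : ℤ) - l) := by
  rw [← intervalIntegral.integral_ofReal]
  have h1 : ∀ θ : ℝ, ((‖T S b θ‖ ^ 2 * K (n * θ) : ℝ) : ℂ) =
      ∑ k ∈ S, ∑ l ∈ S, b k * (starRingEnd ℂ) (b l) *
        (exp ((((k : ℤ) - l : ℤ) : ℂ) * θ * I) * (K (n * θ) : ℂ)) := by
    intro θ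
    push_cast
    rw [← Complex.mul_conj']
    unfold T
    rw [map_sum, Finset.sum_mul_sum, Finset.sum_mul]
    refine Finset.sum_congr rfl fun k _ => ?_
    rw [Finset.sum_mul]
    refine Finset.sum_congr rfl fun l _ => ?_
    rw [map_mul, ← Complex.exp_conj]
    have : exp (((k : ℂ) - (l : ℂ)) * θ * I) =
        exp (k * θ * I) * exp ((starRingEnd ℂ) (l * θ * I)) := by
      rw [← Complex.exp_add]
      congr 1
      simp
      ring
    rw [this]
    ring
  calc (∫ θ in (0:ℝ)..(2 * Real.pi), ((‖T S b θ‖ ^ 2 * K (n * θ) : ℝ) : ℂ))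
      = ∫ θ in (0:ℝ)..(2 * Real.pi), ∑ k ∈ S, ∑ l ∈ S, b k * (starRingEnd ℂ) (b l) *
        (exp ((((k : ℤ) - l : ℤ) : ℂ) * θ * I) * (K (n * θ) : ℂ)) :=
        intervalIntegral.integral_congr fun θ _ => h1 θ
    _ = _ := by
      rw [intervalIntegral.integral_finsetSum]
      · refine Finset.sum_congr rfl fun k _ => ?_
        rw [intervalIntegral.integral_finsetSum]
        · refine Finset.sum_congr rfl fun l _ => ?_
          rw [intervalIntegral.integral_const_mul]
          rfl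
        · intro l _
          apply Continuous.intervalIntegrable
          fun_prop
      · intro k _
        apply Continuous.intervalIntegrable
        fun_prop

theorem form_low {n : ℕ} (hn : 0 < n) (S : Finset ℕ) (hS : ∀ k ∈ S, k < n) (b : ℕ → ℂ)
    {K : ℝ → ℝ} (hK : Continuous K) (hper : Function.Periodic K (2 * Real.pi)) :
    (∫ θ in (0:ℝ)..(2 * Real.pi), ‖T S b θ‖ ^ 2 * K (n * θ)) =
      mass K n * ∑ k ∈ S, ‖b k‖ ^ 2 := by
  have h := form_eq S b hK n
  have h2 : (∑ k ∈ S, ∑ l ∈ S, b k * (starRingEnd ℂ) (b l) * J K n ((k : ℤ) - l)) =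
      ((mass K n * ∑ k ∈ S, ‖b k‖ ^ 2 : ℝ) : ℂ) := by
    push_cast
    rw [Finset.mul_sum]
    refine Finset.sum_congr rfl fun k hk => ?_
    rw [Finset.sum_eq_single k]
    · rw [sub_self, J_zero, Complex.mul_conj', mul_comm]
    · intro l hl hlk
      rw [J_eq_zero hper hn, mul_zero]
      rintro ⟨c, hc⟩
      have h3 := hS k hk
      have h4 := hS l hl
      have h5 : c = 0 := by
        by_contra hc0
        rcases lt_or_gt_of_ne hc0 with h | h
        · have : (n : ℤ) * c ≤ -n := by nlinarith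
          omega
        · have : (n : ℤ) * c ≥ n := by nlinarith
          omega
      rw [h5] at hc
      apply hlk
      omega
    · intro h; exact absurd hk h
  rw [h2] at h
  exact_mod_cast h

theorem form_le {n : ℕ} (hn : 0 < n) (S : Finset ℕ) (b : ℕ → ℂ)
    {K : ℝ → ℝ} (hK : Continuous K) (h0 : ∀ x, 0 ≤ K x)
    (hper : Function.Periodic K (2 * Real.pi)) :
    (∫ θ in (0:ℝ)..(2 * Real.pi), ‖T S b θ‖ ^ 2 * K (n * θ)) ≤
      mass K n * ∑ k ∈ S, ∑ l ∈ S with k % n = l % n, ‖b k‖ * ‖b l‖ := by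
  have h := form_eq S b hK n
  have hnn : 0 ≤ ∫ θ in (0:ℝ)..(2 * Real.pi), ‖T S b θ‖ ^ 2 * K (n * θ) := by
    apply intervalIntegral.integral_nonneg (by positivity)
    intro θ _
    exact mul_nonneg (by positivity) (h0 _)
  have h1 : (∫ θ in (0:ℝ)..(2 * Real.pi), ‖T S b θ‖ ^ 2 * K (n * θ)) =
      ‖∑ k ∈ S, ∑ l ∈ S, b k * (starRingEnd ℂ) (b l) * J K n ((k : ℤ) - l)‖ := by
    rw [← h, Complex.norm_real, Real.norm_eq_abs, abs_of_nonneg hnn]
  rw [h1, Finset.mul_sum]
  refine (norm_sum_le _ _).trans (Finset.sum_le_sum fun k _ => ?_)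
  refine (norm_sum_le _ _).trans ?_
  rw [Finset.mul_sum, Finset.sum_filter]
  refine Finset.sum_le_sum fun l _ => ?_
  split_ifs with hkl
  · rw [norm_mul, norm_mul, RCLike.norm_conj, mul_comm]
    exact mul_le_mul_of_nonneg_right (norm_J_le h0 n _) (by positivity)
  · rw [J_eq_zero hper hn]
    · simp
    · intro hd
      apply hkl
      have := (Nat.modEq_iff_dvd (n := n) (a := l) (b := k)).mpr hd
      exact this.symm

end H731WI
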