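import Pool.Agent.H731_WI.Circle

/-!
Quadratic means over circles.
-/

namespace H731WI

open MeasureTheory Complex Finset Filter Topology

/-- quadratic mean over the circle of radius `s` -/
noncomputable def m2 (g : ℂ → ℂ) (s : ℝ) : ℝ := Real.circleAverage (fun z => ‖g z‖ ^ 2) 0 s

theorem m2_eq (g : ℂ → ℂ) (s : ℝ) : m2 g s =
    (2 * Real.pi)⁻¹ * ∫ θ in (0:ℝ)..(2 * Real.pi), ‖g (s * exp (θ * I))‖ ^ 2 := by
  unfold m2
  rw [Real.circleAverage_def, smul_eq_mul]
  simp [circleMap]

theorem m2_nonneg (g : ℂ → ℂ) (s : ℝ) : 0 ≤ m2 g s :=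
  Real.circleAverage_nonneg_of_nonneg fun _ _ => by positivity

theorem eval_eq_T (a : ℕ → ℂ) (D : ℕ) (s : ℝ) (θ : ℝ) :
    ∑ k ∈ range D, a k * ((s : ℂ) * exp (θ * I)) ^ k =
      T (range D) (fun k => a k * (s : ℂ) ^ k) θ := by
  unfold T
  refine Finset.sum_congr rfl fun k _ => ?_
  rw [mul_pow, ← Complex.exp_nat_mul]
  ring_nf

theorem m2_poly (a : ℕ → ℂ) (D : ℕ) {s : ℝ} (hs : 0 ≤ s) :
    m2 (fun z => ∑ k ∈ range D, a k * z ^ k) s = ∑ k ∈ range D, ‖a k‖ ^ 2 * s ^ (2 * k) := by
  rw [m2_eq]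
  have h := form_low (n := D + 1) (Nat.succ_pos D) (range D)
    (fun k hk => by have := Finset.mem_range.mp hk; omega) (fun k => a k * (s : ℂ) ^ k)
    (K := fun _ => 1) continuous_const (fun _ => rfl)
  have hmass : mass (fun _ => 1) (D + 1) = 2 * Real.pi := by
    unfold mass
    simp
  rw [hmass] at h
  simp only [mul_one] at h
  have h2 : (∫ θ in (0:ℝ)..(2 * Real.pi),
      ‖(fun z : ℂ => ∑ k ∈ range D, a k * z ^ k) (s * exp (θ * I))‖ ^ 2) =
      ∫ θ in (0:ℝ)..(2 * Real.pi), ‖T (range D) (fun k => a k * (s : ℂ) ^ k) θ‖ ^ 2 := by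
    refine intervalIntegral.integral_congr fun θ _ => ?_
    simp only
    rw [eval_eq_T]
  rw [h2, h, ← mul_assoc, inv_mul_cancel₀ (by positivity), one_mul]
  refine Finset.sum_congr rfl fun k _ => ?_
  rw [norm_mul, norm_pow, Complex.norm_real, Real.norm_eq_abs, abs_of_nonneg hs]
  ring

theorem m2_tendsto {F : ℕ → ℂ → ℂ} {g : ℂ → ℂ} {s : ℝ} (hs : 0 ≤ s)
    (hF : ∀ n, Continuous (F n)) (hg : ContinuousOn g (Metric.closedBall 0 s))
    (h : TendstoUniformlyOn F g atTop (Metric.closedBall 0 s)) :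
    Tendsto (fun n => m2 (F n) s) atTop (𝓝 (m2 g s)) := by
  have hmem : ∀ θ : ℝ, (s : ℂ) * exp (θ * I) ∈ Metric.closedBall (0:ℂ) s := by
    intro θ
    rw [mem_closedBall_zero_iff, norm_mul, Complex.norm_exp_ofReal_mul_I, mul_one,
      Complex.norm_real, Real.norm_eq_abs, abs_of_nonneg hs]
  obtain ⟨B, hB⟩ := (isCompact_closedBall (0:ℂ) s).exists_bound_of_continuousOn hg
  simp_rw [m2_eq]
  apply Tendsto.const_mul
  apply intervalIntegral.tendsto_integral_filter_of_dominated_convergence (fun _ => (B + 1) ^ 2)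
  · refine Eventually.of_forall fun n => ?_
    apply Continuous.aestronglyMeasurable
    have := hF n
    fun_prop
  · rw [Metric.tendstoUniformlyOn_iff] at h
    filter_upwards [h 1 one_pos] with n hn
    refine Eventually.of_forall fun θ _ => ?_
    have h1 := hn _ (hmem θ)
    have h2 := hB _ (hmem θ)
    rw [dist_eq_norm] at h1
    have h3 : ‖F n (s * exp (θ * I))‖ ≤ B + 1 := by
      calc ‖F n (s * exp (θ * I))‖ = ‖g (s * exp (θ * I)) -
            (g (s * exp (θ * I)) - F n (s * exp (θ * I)))‖ := by congr 1; ring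
        _ ≤ _ := (norm_sub_le _ _).trans (by linarith)
    rw [Real.norm_eq_abs, abs_of_nonneg (by positivity)]
    exact pow_le_pow_left₀ (norm_nonneg _) h3 2
  · exact continuous_const.intervalIntegrable _ _
  · refine Eventually.of_forall fun θ _ => ?_
    have := h.tendsto_at (hmem θ)
    exact (this.norm).pow 2

theorem m2_mono {g : ℂ → ℂ} (hg : DifferentiableOn ℂ g (Metric.ball 0 1)) {s t : ℝ}
    (hs : 0 ≤ s) (hst : s ≤ t) (ht : t < 1) : m2 g s ≤ m2 g t := by
  obtain ⟨R, hR1, hR2⟩ := exists_between ht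
  obtain ⟨Q, hQ1, hQ2⟩ := exists_between hR1
  have hQ0 : 0 < Q := by linarith
  have hR0 : 0 < R := by linarith
  lift R to NNReal using hR0.le
  lift Q to NNReal using hQ0.le
  have hd : DifferentiableOn ℂ g (Metric.closedBall 0 R) := by
    apply hg.mono
    exact Metric.closedBall_subset_ball hR2
  have hps := hd.hasFPowerSeriesOnBall (R := R) (by exact_mod_cast hR0)
  have hQR : (Q : ENNReal) < (R : ENNReal) := by
    rw [ENNReal.coe_lt_coe]
    exact_mod_cast hQ2
  have hu := hps.tendstoUniformlyOn hQR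
  simp only [zero_add] at hu
  set p := cauchyPowerSeries g 0 R with hp
  have hpart : ∀ n y, p.partialSum n y = ∑ k ∈ range n, p.coeff k * y ^ k := by
    intro n y
    unfold FormalMultilinearSeries.partialSum
    refine Finset.sum_congr rfl fun k _ => ?_
    rw [FormalMultilinearSeries.apply_eq_pow_smul_coeff, smul_eq_mul, mul_comm]
  have key : ∀ r : ℝ, 0 ≤ r → r ≤ t →
      Tendsto (fun n => ∑ k ∈ range n, ‖p.coeff k‖ ^ 2 * r ^ (2 * k)) atTop (𝓝 (m2 g r)) := by
    intro r hr hrt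
    have hsub : Metric.closedBall (0:ℂ) r ⊆ Metric.ball 0 (Q : ℝ) := by
      apply Metric.closedBall_subset_ball
      linarith
    have := m2_tendsto (F := fun n y => ∑ k ∈ range n, p.coeff k * y ^ k) (g := g) (s := r) hr
      (fun n => by fun_prop)
      (hg.continuousOn.mono (Metric.closedBall_subset_ball (by linarith)))
      ((hu.mono hsub).congr (Eventually.of_forall fun n y _ => hpart n y))
    refine this.congr fun n => ?_
    exact m2_poly _ _ hr
  refine le_of_tendsto_of_tendsto' (key s hs hst) (key t (hs.trans hst) le_rfl) fun n => ?_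
  refine Finset.sum_le_sum fun k _ => ?_
  gcongr

theorem m2_zero_radius (g : ℂ → ℂ) : m2 g 0 = ‖g 0‖ ^ 2 := by
  unfold m2
  rw [Real.circleAverage_zero]

theorem m2_cont {g : ℂ → ℂ} (hg : ContinuousOn g (Metric.ball 0 1)) :
    ContinuousOn (m2 g) (Set.Ico 0 1) := by
  unfold m2
  apply Real.ContinuousOn.circleAverage
  · apply ContinuousOn.pow
    apply ContinuousOn.norm
    apply hg.mono
    intro z hz
    simp only [sub_zero, Set.mem_Ico] at hz
    exact mem_ball_zero_iff.mpr hz.2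
  · intro r hr
    exact hr.1

end H731WI
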