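import Pool.Agent.H731_WI.Laplace
import Pool.Agent.H731_WI.Mean

/-!
The construction of the radii and of the function.
-/

namespace H731WI

open MeasureTheory Complex Filter Topology

/-- the choice of the amplitude -/
noncomputable def Uf (M : NNReal) (j : ℕ) : ℕ :=
  (exists_U M (2 * Real.pi * Real.exp ((j + 6) * (M + 1))) M.2).choose

theorem Uf_spec (M : NNReal) (j : ℕ) :
    (∫ φ in (0:ℝ)..(2 * Real.pi), Kw (Uf M j) (2 * M) (1 / 10) φ) ≤
      2 * (∫ φ in (0:ℝ)..(2 * Real.pi), Kw (Uf M j) (-(2 * M)) (-(1 / 10)) φ) ∧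
    2 * Real.pi * Real.exp ((j + 6) * (M + 1)) ≤
      ∫ φ in (0:ℝ)..(2 * Real.pi), Kw (Uf M j) (-(2 * M)) (-(1 / 10)) φ :=
  (exists_U M (2 * Real.pi * Real.exp ((j + 6) * (M + 1))) M.2).choose_spec

/-- bounds -/
noncomputable def Ms : ℕ → NNReal
  | 0 => 0
  | (j + 1) => 17 * Ms j + 16 * (Uf (Ms j) j : NNReal)

/-- amplitudes -/
noncomputable def Us (j : ℕ) : ℕ := Uf (Ms j) j

theorem Ms_succ (j : ℕ) : (Ms (j + 1) : ℝ) = 17 * Ms j + 16 * Us j := by
  simp [Ms, Us]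

theorem Ms_mono : Monotone Ms := by
  apply monotone_nat_of_le_succ
  intro j
  rw [← NNReal.coe_le_coe, Ms_succ]
  have h1 : (0:ℝ) ≤ Ms j := (Ms j).2
  have h2 : (0:ℝ) ≤ Us j := Nat.cast_nonneg _
  linarith

theorem exists_N (j : ℕ) : ∃ N : ℕ, 2 ≤ N ∧
    16 * (1 / 16 : ℝ) ^ N * (Us (j + 1) + Ms (j + 1)) ≤ 1 / 40 * (1 / 2) ^ (j + 1) := by
  have h1 : Tendsto (fun N : ℕ => 16 * (1 / 16 : ℝ) ^ N * (Us (j + 1) + Ms (j + 1))) atTop
      (𝓝 (16 * 0 * (Us (j + 1) + Ms (j + 1)))) := by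
    apply Tendsto.mul_const
    apply Tendsto.const_mul
    exact tendsto_pow_atTop_nhds_zero_of_lt_one (by norm_num) (by norm_num)
  rw [mul_zero, zero_mul] at h1
  have h2 : (0 : ℝ) < 1 / 40 * (1 / 2) ^ (j + 1) := by positivity
  obtain ⟨N, hN1, hN2⟩ := ((h1.eventually_le_const h2).and (eventually_ge_atTop 2)).exists
  exact ⟨N, hN2, hN1⟩

/-- the quotients of the frequencies -/
noncomputable def Nq (j : ℕ) : ℕ := (exists_N j).choose

theorem Nq_two (j : ℕ) : 2 ≤ Nq j := (exists_N j).choose_spec.1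

theorem Nq_spec (j : ℕ) :
    16 * (1 / 16 : ℝ) ^ (Nq j) * (Us (j + 1) + Ms (j + 1)) ≤ 1 / 40 * (1 / 2) ^ (j + 1) :=
  (exists_N j).choose_spec.2

/-- the frequencies -/
noncomputable def nn : ℕ → ℕ
  | 0 => 1
  | (j + 1) => nn j * Nq j

theorem nn_pos : ∀ j, 0 < nn j
  | 0 => one_pos
  | (j + 1) => Nat.mul_pos (nn_pos j) (by have := Nq_two j; omega)

theorem nn_ge : ∀ j, 2 ^ j ≤ nn j
  | 0 => le_rfl
  | (j + 1) => by
    rw [pow_succ]
    exact Nat.mul_le_mul (nn_ge j) (Nq_two j)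

/-- the radii -/
noncomputable def rr (j : ℕ) : ℝ := (1 / 16 : ℝ) ^ ((nn j : ℝ)⁻¹)

theorem rr_pow (j : ℕ) : rr j ^ nn j = 1 / 16 := by
  unfold rr
  rw [← Real.rpow_natCast, ← Real.rpow_mul (by norm_num), inv_mul_cancel₀, Real.rpow_one]
  have := nn_pos j
  positivity

theorem rr_pos (j : ℕ) : 0 < rr j := by
  unfold rr; positivity

theorem rr_lt_one (j : ℕ) : rr j < 1 := by
  have h := rr_pow j
  by_contra hge
  push Not at hge
  have := one_le_pow₀ (n := nn j) hge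
  rw [h] at this
  norm_num at this

theorem rr_succ_pow (j : ℕ) : 1 / 4 ≤ rr (j + 1) ^ nn j := by
  have h := rr_pow (j + 1)
  have h2 : nn (j + 1) = nn j * Nq j := rfl
  rw [h2, pow_mul] at h
  set x := rr (j + 1) ^ nn j with hx
  have hx0 : 0 < x := pow_pos (rr_pos _) _
  have hx1 : x ≤ 1 := pow_le_one₀ (rr_pos _).le (rr_lt_one _).le
  have h3 : x ^ Nq j ≤ x ^ 2 := pow_le_pow_of_le_one hx0.le hx1 (Nq_two j)
  rw [h] at h3
  nlinarith

theorem rr_le_succ (j : ℕ) : rr j ≤ rr (j + 1) := by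
  by_contra h
  push Not at h
  have h1 : rr (j + 1) ^ nn j ≤ rr j ^ nn j := pow_le_pow_left₀ (rr_pos _).le h.le _
  rw [rr_pow] at h1
  have := rr_succ_pow j
  linarith

theorem rr_mono : Monotone rr := monotone_nat_of_le_succ rr_le_succ

theorem exists_rr {s : ℝ} (hs : s < 1) : ∃ k, ∀ j, k ≤ j → s < rr j := by
  rcases le_or_gt s 0 with h | h
  · exact ⟨0, fun j _ => lt_of_le_of_lt h (rr_pos j)⟩
  · have h1 : Tendsto (fun n : ℕ => s ^ n) atTop (𝓝 0) :=
      tendsto_pow_atTop_nhds_zero_of_lt_one h.le hs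
    have h2 := h1.eventually_lt_const (show (0:ℝ) < 1 / 16 by norm_num)
    rw [eventually_atTop] at h2
    obtain ⟨n0, hn0⟩ := h2
    refine ⟨n0, fun j hj => ?_⟩
    by_contra hc
    push Not at hc
    have h3 : rr j ^ nn j ≤ s ^ nn j := pow_le_pow_left₀ (rr_pos _).le hc _
    rw [rr_pow] at h3
    have h4 : n0 ≤ nn j := by
      have := nn_ge j
      have h5 : j < 2 ^ j := Nat.lt_two_pow_self
      omega
    have := hn0 _ h4
    linarith

/-- the partial sums of the exponent -/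
noncomputable def Hs : ℕ → Polynomial ℂ
  | 0 => 0
  | (j + 1) => Hs j + 16 * Polynomial.X ^ nn j * (Polynomial.C (Us j : ℂ) - Hs j)

/-- the increments -/
noncomputable def ds (j : ℕ) (z : ℂ) : ℂ := 16 * z ^ nn j * ((Us j : ℂ) - (Hs j).eval z)

theorem Hs_succ (j : ℕ) (z : ℂ) : (Hs (j + 1)).eval z = (Hs j).eval z + ds j z := by
  simp [Hs, ds]

theorem Hs_eq_sum (j : ℕ) (z : ℂ) : (Hs j).eval z = ∑ i ∈ Finset.range j, ds i z := by
  induction j with
  | zero => simp [Hs]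
  | succ j ih => rw [Hs_succ, ih, Finset.sum_range_succ]

theorem Hs_bound (j : ℕ) {z : ℂ} (hz : ‖z‖ ≤ 1) : ‖(Hs j).eval z‖ ≤ Ms j := by
  induction j with
  | zero => simp [Hs, Ms]
  | succ j ih =>
    rw [Hs_succ, Ms_succ]
    have h1 : ‖ds j z‖ ≤ 16 * (Us j + Ms j) := by
      unfold ds
      rw [norm_mul, norm_mul, norm_pow]
      have h2 : ‖z‖ ^ nn j ≤ 1 := pow_le_one₀ (norm_nonneg _) hz
      have h3 : ‖(Us j : ℂ) - (Hs j).eval z‖ ≤ Us j + Ms j := by
        refine (norm_sub_le _ _).trans ?_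
        rw [Complex.norm_natCast]
        linarith
      have h4 : ‖(16 : ℂ)‖ = 16 := by norm_num
      rw [h4]
      have h5 : (0:ℝ) ≤ ‖z‖ ^ nn j := by positivity
      have h6 : 0 ≤ ‖(Us j : ℂ) - (Hs j).eval z‖ := norm_nonneg _
      nlinarith
    refine (norm_add_le _ _).trans ?_
    linarith

theorem ds_bound_one (j : ℕ) {z : ℂ} (hz : ‖z‖ ≤ 1) :
    ‖ds j z‖ ≤ 16 * ‖z‖ ^ nn j * (Us j + Ms j) := by
  unfold ds
  rw [norm_mul, norm_mul, norm_pow]
  have h3 : ‖(Us j : ℂ) - (Hs j).eval z‖ ≤ Us j + Ms j := by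
    refine (norm_sub_le _ _).trans ?_
    rw [Complex.norm_natCast]
    linarith [Hs_bound j hz]
  have h4 : ‖(16 : ℂ)‖ = 16 := by norm_num
  rw [h4]
  exact mul_le_mul_of_nonneg_left h3 (by positivity)

theorem ds_bound {k j : ℕ} (hkj : k < j) {z : ℂ} (hz : ‖z‖ ≤ rr k) :
    ‖ds j z‖ ≤ 1 / 40 * (1 / 2) ^ j := by
  obtain ⟨i, rfl⟩ : ∃ i, j = i + 1 := ⟨j - 1, by omega⟩
  have hz1 : ‖z‖ ≤ 1 := hz.trans (rr_lt_one k).le
  refine (ds_bound_one (i + 1) hz1).trans ?_
  refine le_trans ?_ (Nq_spec i)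
  have h1 : ‖z‖ ^ nn (i + 1) ≤ (1 / 16) ^ Nq i := by
    calc ‖z‖ ^ nn (i + 1) ≤ rr i ^ nn (i + 1) :=
          pow_le_pow_left₀ (norm_nonneg _) (hz.trans (rr_mono (by omega))) _
      _ = (rr i ^ nn i) ^ Nq i := by
          rw [← pow_mul]; rfl
      _ = _ := by rw [rr_pow]
  have h2 : (0:ℝ) ≤ Us (i + 1) + Ms (i + 1) := add_nonneg (Nat.cast_nonneg _) (Ms (i + 1)).2
  apply mul_le_mul_of_nonneg_right _ h2
  apply mul_le_mul_of_nonneg_left h1 (by norm_num)

/-- the exponent -/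
noncomputable def hs (z : ℂ) : ℂ := ∑' j, ds j z

theorem ds_bound_all (k : ℕ) : ∃ u : ℕ → ℝ, Summable u ∧
    ∀ j (z : ℂ), ‖z‖ ≤ rr k → ‖ds j z‖ ≤ u j := by
  refine ⟨fun j => (if j ∈ Finset.range (k + 1) then 16 * ((Us j : ℝ) + Ms j) else 0) +
    1 / 40 * (1 / 2) ^ j, ?_, ?_⟩
  · apply Summable.add
    · exact summable_of_hasFiniteSupport ((Finset.range (k + 1)).finite_toSet.subset (by
        intro j hj
        simp only [Function.mem_support, ne_eq, ite_eq_right_iff, Classical.not_imp] at hj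
        exact hj.1))
    · exact (summable_geometric_of_lt_one (by norm_num) (by norm_num)).mul_left _
  · intro j z hz
    have hz1 : ‖z‖ ≤ 1 := hz.trans (rr_lt_one k).le
    rcases lt_or_ge k j with h | h
    · have := ds_bound h hz
      simp only [Finset.mem_range]
      rw [if_neg (by omega)]
      linarith
    · have h1 := ds_bound_one j hz1
      have h2 : ‖z‖ ^ nn j ≤ 1 := pow_le_one₀ (norm_nonneg _) hz1
      have h3 : (0:ℝ) ≤ Us j + Ms j := add_nonneg (Nat.cast_nonneg _) (Ms j).2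
      have h4 : (0:ℝ) ≤ 1 / 40 * (1 / 2) ^ j := by positivity
      simp only [Finset.mem_range]
      rw [if_pos (by omega)]
      have h5 : (0:ℝ) ≤ ‖z‖ ^ nn j := by positivity
      nlinarith

theorem ds_summable {z : ℂ} (hz : ‖z‖ < 1) : Summable (fun j => ds j z) := by
  obtain ⟨k, hk⟩ := exists_rr hz
  obtain ⟨u, hu, hb⟩ := ds_bound_all k
  exact Summable.of_norm_bounded hu fun j => hb j z (hk k le_rfl).le

theorem hs_sub {k : ℕ} {z : ℂ} (hz : ‖z‖ ≤ rr k) :
    ‖hs z - (Hs (k + 1)).eval z‖ ≤ 1 / 40 * (1 / 2) ^ k := by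
  have hsum := ds_summable (lt_of_le_of_lt hz (rr_lt_one k))
  have h1 : hs z - (Hs (k + 1)).eval z = ∑' j, ds (j + (k + 1)) z := by
    unfold hs
    rw [Hs_eq_sum, ← hsum.sum_add_tsum_nat_add (k + 1)]
    ring
  rw [h1]
  have h2 : Summable (fun j : ℕ => 1 / 40 * (1 / 2 : ℝ) ^ (j + (k + 1))) := by
    have := (summable_geometric_of_lt_one (r := (1 / 2 : ℝ)) (by norm_num) (by norm_num)).mul_left
      (1 / 40 : ℝ)
    exact this.comp_injective (add_left_injective (k + 1))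
  refine (tsum_of_norm_bounded h2.hasSum fun j => ds_bound (by omega) hz).trans ?_
  apply le_of_eq
  have h3 : ∀ j : ℕ, 1 / 40 * (1 / 2 : ℝ) ^ (j + (k + 1)) =
      1 / 40 * (1 / 2) ^ (k + 1) * (1 / 2) ^ j := by
    intro j; rw [pow_add]; ring
  simp_rw [h3]
  rw [tsum_mul_left, tsum_geometric_of_lt_one (by norm_num) (by norm_num)]
  rw [pow_succ]
  ring

theorem hs_diff : DifferentiableOn ℂ hs (Metric.ball 0 1) := by
  intro z hz
  rw [mem_ball_zero_iff] at hz
  obtain ⟨k, hk⟩ := exists_rr hz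
  obtain ⟨u, hu, hb⟩ := ds_bound_all k
  have h1 : DifferentiableOn ℂ (fun w => ∑' j, ds j w) (Metric.ball 0 (rr k)) := by
    apply differentiableOn_tsum_of_summable_norm hu
    · intro i
      unfold ds
      apply Differentiable.differentiableOn
      have := (Hs i).differentiable
      fun_prop
    · exact Metric.isOpen_ball
    · intro i w hw
      exact hb i w (mem_ball_zero_iff.mp hw).le
  have hmem : Metric.ball (0:ℂ) (rr k) ∈ 𝓝 z :=
    Metric.isOpen_ball.mem_nhds (mem_ball_zero_iff.mpr (hk k le_rfl))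
  exact (h1.differentiableAt hmem).differentiableWithinAt

theorem hs_zero : hs 0 = 0 := by
  unfold hs ds
  have : ∀ j, (0:ℂ) ^ nn j = 0 := fun j => zero_pow (nn_pos j).ne'
  simp [this]

open Classical in
/-- the function -/
noncomputable def ff (z : ℂ) : ℂ := if ‖z‖ < 1 then exp (hs z) else 0

theorem ff_eq {z : ℂ} (hz : ‖z‖ < 1) : ff z = exp (hs z) := by
  unfold ff; rw [if_pos hz]

theorem ff_diff : DifferentiableOn ℂ ff (Metric.ball 0 1) := by
  have h : DifferentiableOn ℂ (fun z => exp (hs z)) (Metric.ball 0 1) := hs_diff.cexp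
  exact h.congr fun z hz => ff_eq (mem_ball_zero_iff.mp hz)

theorem ff_meas : Measurable ff := by
  classical
  have h := (hs_diff.cexp.continuousOn)
  have h2 : ff = Set.piecewise (Metric.ball 0 1) (fun z => exp (hs z)) (fun _ => 0) := by
    ext z
    by_cases hz : ‖z‖ < 1
    · rw [ff_eq hz, Set.piecewise_eq_of_mem _ _ _ (mem_ball_zero_iff.mpr hz)]
    · rw [Set.piecewise_eq_of_notMem _ _ _ (fun h => hz (mem_ball_zero_iff.mp h))]
      unfold ff; rw [if_neg hz]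
  rw [h2]
  exact h.measurable_piecewise continuousOn_const Metric.isOpen_ball.measurableSet

theorem ff_zero : ff 0 = 1 := by
  rw [ff_eq (by simp), hs_zero, Complex.exp_zero]

end H731WI
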