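import Pool.Agent.H731_WI.Circle

/-!
The level inequality.
-/

namespace H731WI

open MeasureTheory Complex Finset

theorem sum_residue {n : ℕ} (hn : 0 < n) (D : ℕ) (m : ℕ) {ρ : ℝ} (h0 : 0 ≤ ρ) (h1 : ρ ≤ 1)
    (hρ : ρ ^ n ≤ 1 / 4) :
    ∑ l ∈ Ico n D with m % n = l % n, ρ ^ l ≤ 1 / 3 := by
  have h2 : ∀ l ∈ (Ico n D).filter (fun l => m % n = l % n), ρ ^ l ≤ (1 / 4 : ℝ) ^ (l / n) := by
    intro l _
    calc ρ ^ l = ρ ^ (n * (l / n) + l % n) := by rw [Nat.div_add_mod]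
      _ = (ρ ^ n) ^ (l / n) * ρ ^ (l % n) := by rw [pow_add, pow_mul]
      _ ≤ (1 / 4) ^ (l / n) * 1 := by
        apply mul_le_mul
        · exact pow_le_pow_left₀ (by positivity) hρ _
        · exact pow_le_one₀ h0 h1
        · positivity
        · positivity
      _ = _ := mul_one _
  refine (Finset.sum_le_sum h2).trans ?_
  have h3 : Set.InjOn (fun l => l / n) ((Ico n D).filter (fun l => m % n = l % n) : Finset ℕ) := by
    intro a ha b hb hab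
    simp only [coe_filter, Set.mem_ofPred_eq] at ha hb
    simp only at hab
    rw [← Nat.div_add_mod a n, ← Nat.div_add_mod b n, hab, ← ha.2, ← hb.2]
  rw [← Finset.sum_image (s := (Ico n D).filter (fun l => m % n = l % n)) (g := fun l => l / n)
    (f := fun j => (1 / 4 : ℝ) ^ j) h3]
  have h4 : ((Ico n D).filter (fun l => m % n = l % n)).image (fun l => l / n) ⊆ Ico 1 (D + 1) := by
    intro j hj
    rw [Finset.mem_image] at hj
    obtain ⟨l, hl, rfl⟩ := hj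
    rw [Finset.mem_filter, Finset.mem_Ico] at hl
    rw [Finset.mem_Ico]
    constructor
    · exact (Nat.one_le_div_iff hn).mpr hl.1.1
    · have := Nat.div_le_self l n
      omega
  refine (Finset.sum_le_sum_of_subset_of_nonneg h4 fun _ _ _ => by positivity).trans ?_
  rw [Finset.sum_Ico_eq_sum_range]
  have h5 : ∀ N : ℕ, ∑ k ∈ range N, (1 / 4 : ℝ) ^ (1 + k) ≤ 1 / 3 := by
    intro N
    have : ∀ N : ℕ, ∑ k ∈ range N, (1 / 4 : ℝ) ^ (1 + k) = 1 / 3 * (1 - (1 / 4) ^ N) := by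
      intro N
      induction N with
      | zero => simp
      | succ N ih => rw [Finset.sum_range_succ, ih]; ring
    rw [this]
    have : (0 : ℝ) ≤ (1 / 4) ^ N := by positivity
    linarith
  exact h5 _

theorem level {n : ℕ} (hn : 0 < n) (D : ℕ) (a : ℕ → ℂ) {s t : ℝ} (hs : 0 < s) (hst : s ≤ t)
    (hr : s ^ n ≤ t ^ n / 4)
    {K : ℝ → ℝ} (hK : Continuous K) (h0 : ∀ x, 0 ≤ K x)
    (hper : Function.Periodic K (2 * Real.pi)) (hm : 0 < mass K n) :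
    ∑ k ∈ range D, ‖a k‖ ^ 2 * s ^ (2 * k) ≤
      2 / mass K n * (∫ θ in (0:ℝ)..(2 * Real.pi),
        ‖T (range D) (fun k => a k * (s : ℂ) ^ k) θ‖ ^ 2 * K (n * θ)) +
      1 / 4 * ∑ k ∈ range D, ‖a k‖ ^ 2 * t ^ (2 * k) := by
  have ht : 0 < t := lt_of_lt_of_le hs hst
  set b : ℕ → ℂ := fun k => a k * (s : ℂ) ^ k with hb
  have hbn : ∀ k, ‖b k‖ = ‖a k‖ * s ^ k := by
    intro k
    simp only [hb, norm_mul, norm_pow, Complex.norm_real, Real.norm_eq_abs, abs_of_pos hs]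
  set S1 := (range D).filter (fun k => k < n) with hS1
  set S2 := (range D).filter (fun k => ¬ k < n) with hS2
  have hS2' : S2 = Ico n D := by
    ext k
    simp only [hS2, Finset.mem_filter, Finset.mem_range, Finset.mem_Ico]
    omega
  set X := ∑ k ∈ S1, ‖b k‖ ^ 2 with hX
  set Y := ∑ k ∈ S2, ‖a k‖ ^ 2 * t ^ (2 * k) with hY
  set ρ := s / t with hρ
  have hρ0 : 0 < ρ := by positivity
  have hρ1 : ρ ≤ 1 := (div_le_one ht).mpr hst
  have hρn : ρ ^ n ≤ 1 / 4 := by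
    rw [hρ, div_pow, div_le_iff₀ (by positivity)]
    linarith
  have hsρ : s = t * ρ := by rw [hρ]; field_simp
  have hTsum : ∀ θ, T (range D) b θ = T S1 b θ + T S2 b θ := by
    intro θ
    unfold T
    rw [hS1, hS2]
    exact (Finset.sum_filter_add_sum_filter_not _ _ _).symm
  have hpt : ∀ θ, 1 / 2 * (‖T S1 b θ‖ ^ 2 * K (n * θ)) - ‖T S2 b θ‖ ^ 2 * K (n * θ) ≤
      ‖T (range D) b θ‖ ^ 2 * K (n * θ) := by
    intro θ
    have h1 : ‖T S1 b θ‖ ≤ ‖T (range D) b θ‖ + ‖T S2 b θ‖ := by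
      have : T S1 b θ = T (range D) b θ - T S2 b θ := by rw [hTsum]; ring
      rw [this]; exact norm_sub_le _ _
    have h2 : ‖T S1 b θ‖ ^ 2 ≤ 2 * ‖T (range D) b θ‖ ^ 2 + 2 * ‖T S2 b θ‖ ^ 2 := by
      nlinarith [norm_nonneg (T S1 b θ), norm_nonneg (T (range D) b θ), norm_nonneg (T S2 b θ),
        sq_nonneg (‖T (range D) b θ‖ - ‖T S2 b θ‖)]
    have h3 := mul_le_mul_of_nonneg_right h2 (h0 (n * θ))
    nlinarith
  have hci : ∀ S : Finset ℕ, IntervalIntegrable (fun θ => ‖T S b θ‖ ^ 2 * K (n * θ)) volume 0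
      (2 * Real.pi) := by
    intro S
    apply Continuous.intervalIntegrable
    have := continuous_T S b
    fun_prop
  have hint : 1 / 2 * (∫ θ in (0:ℝ)..(2 * Real.pi), ‖T S1 b θ‖ ^ 2 * K (n * θ)) -
      (∫ θ in (0:ℝ)..(2 * Real.pi), ‖T S2 b θ‖ ^ 2 * K (n * θ)) ≤
      ∫ θ in (0:ℝ)..(2 * Real.pi), ‖T (range D) b θ‖ ^ 2 * K (n * θ) := by
    rw [← intervalIntegral.integral_const_mul, ← intervalIntegral.integral_sub
      ((hci S1).const_mul _) (hci S2)]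
    exact intervalIntegral.integral_mono_on (by positivity) (((hci S1).const_mul _).sub (hci S2))
      (hci _) fun θ _ => hpt θ
  rw [form_low hn S1 (fun k hk => (Finset.mem_filter.mp hk).2) b hK hper] at hint
  have hup := form_le hn S2 b hK h0 hper
  have hS : ∑ k ∈ S2, ∑ l ∈ S2 with k % n = l % n, ‖b k‖ * ‖b l‖ ≤ Y / 12 := by
    have h1 : ∀ k ∈ S2, ∀ l ∈ S2, ‖b k‖ * ‖b l‖ ≤
        1 / 2 * (‖a k‖ ^ 2 * t ^ (2 * k) * (ρ ^ k * ρ ^ l)) +
        1 / 2 * (‖a l‖ ^ 2 * t ^ (2 * l) * (ρ ^ k * ρ ^ l)) := by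
      intro k _ l _
      rw [hbn, hbn, hsρ, mul_pow, mul_pow]
      have h2 : (0:ℝ) ≤ ρ ^ k * ρ ^ l := by positivity
      have h3 : (‖a k‖ * t ^ k) * (‖a l‖ * t ^ l) ≤
          1 / 2 * (‖a k‖ * t ^ k) ^ 2 + 1 / 2 * (‖a l‖ * t ^ l) ^ 2 := by
        nlinarith [sq_nonneg (‖a k‖ * t ^ k - ‖a l‖ * t ^ l)]
      have h4 := mul_le_mul_of_nonneg_right h3 h2
      calc ‖a k‖ * (t ^ k * ρ ^ k) * (‖a l‖ * (t ^ l * ρ ^ l))
          = (‖a k‖ * t ^ k) * (‖a l‖ * t ^ l) * (ρ ^ k * ρ ^ l) := by ring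
        _ ≤ (1 / 2 * (‖a k‖ * t ^ k) ^ 2 + 1 / 2 * (‖a l‖ * t ^ l) ^ 2) * (ρ ^ k * ρ ^ l) := h4
        _ = _ := by ring
    have h5 : ∀ k ∈ S2, ρ ^ k ≤ 1 / 4 := by
      intro k hk
      rw [hS2', Finset.mem_Ico] at hk
      exact (pow_le_pow_of_le_one hρ0.le hρ1 hk.1).trans hρn
    have h6 : ∀ k, ∑ l ∈ S2 with k % n = l % n, ρ ^ l ≤ 1 / 3 := by
      intro k
      rw [hS2']
      exact sum_residue hn D k hρ0.le hρ1 hρn
    have h7 : ∑ k ∈ S2, ∑ l ∈ S2 with k % n = l % n,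
        (‖a k‖ ^ 2 * t ^ (2 * k) * (ρ ^ k * ρ ^ l)) ≤ Y / 12 := by
      rw [hY, Finset.sum_div]
      refine Finset.sum_le_sum fun k hk => ?_
      have : ∑ l ∈ S2 with k % n = l % n, (‖a k‖ ^ 2 * t ^ (2 * k) * (ρ ^ k * ρ ^ l)) =
          ‖a k‖ ^ 2 * t ^ (2 * k) * (ρ ^ k * ∑ l ∈ S2 with k % n = l % n, ρ ^ l) := by
        rw [Finset.mul_sum, Finset.mul_sum]
      rw [this]
      have h8 : ρ ^ k * ∑ l ∈ S2 with k % n = l % n, ρ ^ l ≤ 1 / 4 * (1 / 3) := by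
        apply mul_le_mul (h5 k hk) (h6 k)
        · exact Finset.sum_nonneg fun _ _ => by positivity
        · norm_num
      have h9 : 0 ≤ ‖a k‖ ^ 2 * t ^ (2 * k) := by positivity
      calc _ ≤ ‖a k‖ ^ 2 * t ^ (2 * k) * (1 / 4 * (1 / 3)) := mul_le_mul_of_nonneg_left h8 h9
        _ = _ := by ring
    have h8 : ∑ k ∈ S2, ∑ l ∈ S2 with k % n = l % n,
        (‖a l‖ ^ 2 * t ^ (2 * l) * (ρ ^ k * ρ ^ l)) =
        ∑ k ∈ S2, ∑ l ∈ S2 with k % n = l % n,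
        (‖a k‖ ^ 2 * t ^ (2 * k) * (ρ ^ k * ρ ^ l)) := by
      simp_rw [Finset.sum_filter]
      rw [Finset.sum_comm]
      refine Finset.sum_congr rfl fun k _ => Finset.sum_congr rfl fun l _ => ?_
      by_cases h : k % n = l % n
      · rw [if_pos h, if_pos h.symm]; ring
      · rw [if_neg h, if_neg (fun h' => h h'.symm)]
    calc ∑ k ∈ S2, ∑ l ∈ S2 with k % n = l % n, ‖b k‖ * ‖b l‖
        ≤ ∑ k ∈ S2, ∑ l ∈ S2 with k % n = l % n,
          (1 / 2 * (‖a k‖ ^ 2 * t ^ (2 * k) * (ρ ^ k * ρ ^ l)) +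
          1 / 2 * (‖a l‖ ^ 2 * t ^ (2 * l) * (ρ ^ k * ρ ^ l))) := by
          refine Finset.sum_le_sum fun k hk => Finset.sum_le_sum fun l hl => ?_
          exact h1 k hk l (Finset.mem_filter.mp hl).1
      _ = 1 / 2 * (∑ k ∈ S2, ∑ l ∈ S2 with k % n = l % n,
          (‖a k‖ ^ 2 * t ^ (2 * k) * (ρ ^ k * ρ ^ l))) +
          1 / 2 * (∑ k ∈ S2, ∑ l ∈ S2 with k % n = l % n,
          (‖a l‖ ^ 2 * t ^ (2 * l) * (ρ ^ k * ρ ^ l))) := by
          simp_rw [Finset.sum_add_distrib, Finset.mul_sum]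
      _ ≤ Y / 12 := by rw [h8]; linarith
  have hA : ∑ k ∈ range D, ‖a k‖ ^ 2 * s ^ (2 * k) ≤ X + 1 / 16 * Y := by
    rw [← Finset.sum_filter_add_sum_filter_not (range D) (fun k => k < n)]
    apply add_le_add
    · apply le_of_eq
      rw [hX]
      refine Finset.sum_congr rfl fun k _ => ?_
      rw [hbn]; ring
    · rw [hY, Finset.mul_sum]
      refine Finset.sum_le_sum fun k hk => ?_
      have h5 : ρ ^ k ≤ 1 / 4 := by
        change k ∈ S2 at hk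
        rw [hS2', Finset.mem_Ico] at hk
        exact (pow_le_pow_of_le_one hρ0.le hρ1 hk.1).trans hρn
      have h6 : (0:ℝ) ≤ ρ ^ k := by positivity
      have h7 : (ρ ^ k) ^ 2 ≤ 1 / 16 := by nlinarith
      have h9 : 0 ≤ ‖a k‖ ^ 2 * t ^ (2 * k) := by positivity
      calc ‖a k‖ ^ 2 * s ^ (2 * k) = ‖a k‖ ^ 2 * t ^ (2 * k) * (ρ ^ k) ^ 2 := by
            rw [hsρ, mul_pow]; ring
        _ ≤ ‖a k‖ ^ 2 * t ^ (2 * k) * (1 / 16) := mul_le_mul_of_nonneg_left h7 h9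
        _ = _ := by ring
  have hYle : Y ≤ ∑ k ∈ range D, ‖a k‖ ^ 2 * t ^ (2 * k) := by
    rw [hY]
    exact Finset.sum_le_sum_of_subset_of_nonneg (Finset.filter_subset _ _)
      fun _ _ _ => by positivity
  set E := ∫ θ in (0:ℝ)..(2 * Real.pi), ‖T (range D) b θ‖ ^ 2 * K (n * θ) with hE
  have hY0 : 0 ≤ Y := Finset.sum_nonneg fun _ _ => by positivity
  have h10 : mass K n * (X / 2 - Y / 12) ≤ E := by
    have := mul_le_mul_of_nonneg_left hS hm.le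
    linarith
  have h11 : X / 2 - Y / 12 ≤ E / mass K n := by
    rw [le_div_iff₀ hm]; linarith
  have h12 : 2 / mass K n * E = 2 * (E / mass K n) := by ring
  rw [h12]
  linarith

end H731WI
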