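import Pool.Agent.H731_WI.Construct
import Pool.Agent.H731_WI.Level

/-!
Estimates of the function on the circles.
-/

namespace H731WI

open MeasureTheory Complex Filter Topology

theorem mass_eq {K : ℝ → ℝ} (hK : Continuous K) (hper : Function.Periodic K (2 * Real.pi))
    {n : ℕ} (hn : 0 < n) : mass K n = ∫ φ in (0:ℝ)..(2 * Real.pi), K φ := by
  unfold mass
  have hnr : (n : ℝ) ≠ 0 := by positivity
  rw [intervalIntegral.integral_comp_mul_left (fun x => K x) hnr]
  have h := hper.intervalIntegral_add_zsmul_eq (n : ℤ) 0 (fun a b => hK.intervalIntegrable a b)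
  simp only [zero_add, natCast_zsmul, nsmul_eq_mul] at h
  rw [mul_zero, h, smul_eq_mul, ← mul_assoc, inv_mul_cancel₀ hnr, one_mul]

theorem pt_norm (k : ℕ) (θ : ℝ) : ‖(rr k : ℂ) * exp (θ * I)‖ = rr k := by
  rw [norm_mul, Complex.norm_exp_ofReal_mul_I, mul_one, Complex.norm_real, Real.norm_eq_abs,
    abs_of_pos (rr_pos k)]

theorem re_bound (k : ℕ) (θ : ℝ) :
    |(hs (rr k * exp (θ * I))).re - Us k * Real.cos (nn k * θ)| ≤
      Ms k * ‖1 - exp ((nn k * θ : ℝ) * I)‖ + 1 / 20 := by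
  set z : ℂ := (rr k : ℂ) * exp (θ * I) with hz
  have hzn : ‖z‖ = rr k := pt_norm k θ
  have hpow : 16 * z ^ nn k = exp ((nn k * θ : ℝ) * I) := by
    rw [hz, mul_pow, ← Complex.ofReal_pow, rr_pow, ← Complex.exp_nat_mul]
    push_cast
    ring_nf
  have h1 := hs_sub (k := k) (z := z) hzn.le
  have h2 : (Hs (k + 1)).eval z = (Us k : ℂ) * exp ((nn k * θ : ℝ) * I) +
      (1 - exp ((nn k * θ : ℝ) * I)) * (Hs k).eval z := by
    rw [Hs_succ]
    unfold ds
    rw [hpow]
    ring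
  have h3 : hs z = (Us k : ℂ) * exp ((nn k * θ : ℝ) * I) +
      ((1 - exp ((nn k * θ : ℝ) * I)) * (Hs k).eval z + (hs z - (Hs (k + 1)).eval z)) := by
    rw [h2]; ring
  have h4 : ((Us k : ℂ) * exp ((nn k * θ : ℝ) * I)).re = Us k * Real.cos (nn k * θ) := by
    rw [← Complex.ofReal_natCast, Complex.re_ofReal_mul, Complex.exp_ofReal_mul_I_re]
  have h5 : (hs z).re - Us k * Real.cos (nn k * θ) =
      ((1 - exp ((nn k * θ : ℝ) * I)) * (Hs k).eval z + (hs z - (Hs (k + 1)).eval z)).re := by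
    conv_lhs => rw [h3]
    rw [Complex.add_re, h4]
    ring
  rw [h5]
  refine (Complex.abs_re_le_norm _).trans ((norm_add_le _ _).trans ?_)
  have h6 : ‖(1 - exp ((nn k * θ : ℝ) * I)) * (Hs k).eval z‖ ≤
      Ms k * ‖1 - exp ((nn k * θ : ℝ) * I)‖ := by
    rw [norm_mul, mul_comm]
    apply mul_le_mul_of_nonneg_right _ (norm_nonneg _)
    exact Hs_bound k (hzn.le.trans (rr_lt_one k).le)
  have h7 : (1 / 40 : ℝ) * (1 / 2) ^ k ≤ 1 / 20 := by
    have : (1 / 2 : ℝ) ^ k ≤ 1 := pow_le_one₀ (by norm_num) (by norm_num)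
    linarith
  linarith

theorem norm_ff_sq (k : ℕ) (θ : ℝ) : ‖ff (rr k * exp (θ * I))‖ ^ 2 =
    Real.exp (2 * (hs (rr k * exp (θ * I))).re) := by
  rw [ff_eq (by rw [pt_norm]; exact rr_lt_one k), Complex.norm_exp, ← Real.exp_nat_mul]
  norm_num

theorem ff_lower (k : ℕ) (θ : ℝ) :
    Kw (Us k) (-(2 * Ms k)) (-(1 / 10)) (nn k * θ) ≤ ‖ff (rr k * exp (θ * I))‖ ^ 2 := by
  rw [norm_ff_sq]
  unfold Kw
  rw [← Real.exp_nat_mul, ← Real.exp_add]
  apply Real.exp_le_exp.mpr
  have h := (abs_le.mp (re_bound k θ)).1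
  nlinarith

theorem ff_upper (k : ℕ) (θ : ℝ) :
    ‖ff (rr k * exp (θ * I))‖ ^ 2 ≤ Kw (Us k) (2 * Ms k) (1 / 10) (nn k * θ) := by
  rw [norm_ff_sq]
  unfold Kw
  rw [← Real.exp_nat_mul, ← Real.exp_add]
  apply Real.exp_le_exp.mpr
  have h := (abs_le.mp (re_bound k θ)).2
  nlinarith

/-- the lower weight at level `k` -/
noncomputable def Km (k : ℕ) : ℝ → ℝ := Kw (Us k) (-(2 * Ms k)) (-(1 / 10))

theorem cont_circle {g : ℂ → ℂ} (hg : ContinuousOn g (Metric.ball 0 1)) (k : ℕ) :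
    Continuous (fun θ : ℝ => g (rr k * exp (θ * I))) := by
  have h1 : Continuous (fun θ : ℝ => (rr k : ℂ) * exp (θ * I)) := by fun_prop
  refine hg.comp_continuous h1 fun θ => ?_
  rw [mem_ball_zero_iff, pt_norm]
  exact rr_lt_one k

theorem mass_lower (k : ℕ) :
    2 * Real.pi * Real.exp ((k + 6) * (Ms k + 1)) ≤ mass (Km k) (nn k) := by
  unfold Km
  rw [mass_eq (Kw_cont _ _ _) (Kw_per _ _ _) (nn_pos k)]
  exact (Uf_spec (Ms k) k).2

theorem mass_pos (k : ℕ) : 0 < mass (Km k) (nn k) := by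
  refine lt_of_lt_of_le ?_ (mass_lower k)
  positivity

theorem m2_ff_upper (k : ℕ) : 2 * Real.pi * m2 ff (rr k) ≤ 2 * mass (Km k) (nn k) := by
  have h1 : 2 * Real.pi * m2 ff (rr k) =
      ∫ θ in (0:ℝ)..(2 * Real.pi), ‖ff (rr k * exp (θ * I))‖ ^ 2 := by
    rw [m2_eq, ← mul_assoc, mul_inv_cancel₀ (by positivity), one_mul]
  rw [h1]
  have hc := cont_circle ff_diff.continuousOn k
  calc (∫ θ in (0:ℝ)..(2 * Real.pi), ‖ff (rr k * exp (θ * I))‖ ^ 2)
      ≤ ∫ θ in (0:ℝ)..(2 * Real.pi), Kw (Us k) (2 * Ms k) (1 / 10) (nn k * θ) := by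
        apply intervalIntegral.integral_mono_on (by positivity)
        · apply Continuous.intervalIntegrable; fun_prop
        · apply Continuous.intervalIntegrable
          have := Kw_cont (Us k) (2 * Ms k) (1 / 10)
          fun_prop
        · intro θ _
          exact ff_upper k θ
    _ = mass (Kw (Us k) (2 * Ms k) (1 / 10)) (nn k) := rfl
    _ = ∫ φ in (0:ℝ)..(2 * Real.pi), Kw (Us k) (2 * Ms k) (1 / 10) φ :=
        mass_eq (Kw_cont _ _ _) (Kw_per _ _ _) (nn_pos k)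
    _ ≤ 2 * (∫ φ in (0:ℝ)..(2 * Real.pi), Kw (Us k) (-(2 * Ms k)) (-(1 / 10)) φ) :=
        (Uf_spec (Ms k) k).1
    _ = 2 * mass (Km k) (nn k) := by
        unfold Km
        rw [mass_eq (Kw_cont _ _ _) (Kw_per _ _ _) (nn_pos k)]

theorem m2_ff_lower (k : ℕ) : Real.exp ((k + 6) * (Ms k + 1)) ≤ m2 ff (rr k) := by
  rw [m2_eq]
  have h2 : mass (Km k) (nn k) ≤ ∫ θ in (0:ℝ)..(2 * Real.pi), ‖ff (rr k * exp (θ * I))‖ ^ 2 := by
    unfold mass
    apply intervalIntegral.integral_mono_on (by positivity)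
    · apply Continuous.intervalIntegrable
      have := Kw_cont (Us k) (-(2 * Ms k)) (-(1 / 10))
      unfold Km
      fun_prop
    · have hc := cont_circle ff_diff.continuousOn k
      apply Continuous.intervalIntegrable; fun_prop
    · intro θ _
      exact ff_lower k θ
  have h3 := (mass_lower k).trans h2
  rw [inv_mul_eq_div, le_div_iff₀ (by positivity)]
  linarith

theorem m2_ff_pos (k : ℕ) : 0 < m2 ff (rr k) := lt_of_lt_of_le (Real.exp_pos _) (m2_ff_lower k)

/-- the level inequality for the function -/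
theorem level_ff (a : ℕ → ℂ) (D : ℕ) (k : ℕ) :
    ∑ i ∈ Finset.range D, ‖a i‖ ^ 2 * rr k ^ (2 * i) ≤
      4 * (m2 (fun z => (∑ i ∈ Finset.range D, a i * z ^ i) * ff z) (rr k) / m2 ff (rr k)) +
      1 / 4 * ∑ i ∈ Finset.range D, ‖a i‖ ^ 2 * rr (k + 1) ^ (2 * i) := by
  have hr : rr k ^ nn k ≤ rr (k + 1) ^ nn k / 4 := by
    rw [rr_pow]
    have := rr_succ_pow k
    linarith
  have h := level (nn_pos k) D a (rr_pos k) (rr_le_succ k) hr (K := Km k) (Kw_cont _ _ _)
    (fun x => (Kw_pos _ _ _ x).le) (Kw_per _ _ _) (mass_pos k)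
  refine h.trans ?_
  have hpc : Continuous (fun z : ℂ => ∑ i ∈ Finset.range D, a i * z ^ i) := by fun_prop
  have hPf : ContinuousOn (fun z => (∑ i ∈ Finset.range D, a i * z ^ i) * ff z)
      (Metric.ball 0 1) := hpc.continuousOn.mul ff_diff.continuousOn
  have h1 : (∫ θ in (0:ℝ)..(2 * Real.pi),
      ‖T (Finset.range D) (fun i => a i * (rr k : ℂ) ^ i) θ‖ ^ 2 * Km k (nn k * θ)) ≤
      2 * Real.pi * m2 (fun z => (∑ i ∈ Finset.range D, a i * z ^ i) * ff z) (rr k) := by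
    rw [m2_eq, ← mul_assoc, mul_inv_cancel₀ (by positivity), one_mul]
    apply intervalIntegral.integral_mono_on (by positivity)
    · apply Continuous.intervalIntegrable
      have h1 := Kw_cont (Us k) (-(2 * Ms k)) (-(1 / 10))
      have h2 := continuous_T (Finset.range D) (fun i => a i * (rr k : ℂ) ^ i)
      unfold Km
      fun_prop
    · have hc := cont_circle hPf k
      apply Continuous.intervalIntegrable
      fun_prop
    · intro θ _
      rw [← eval_eq_T, norm_mul, mul_pow]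
      exact mul_le_mul_of_nonneg_left (ff_lower k θ) (by positivity)
  set m := mass (Km k) (nn k) with hm
  have hmpos : 0 < m := mass_pos k
  set Q := m2 (fun z => (∑ i ∈ Finset.range D, a i * z ^ i) * ff z) (rr k) with hQ
  have hQ0 : 0 ≤ Q := m2_nonneg _ _
  have h2 : 2 / m * (2 * Real.pi * Q) ≤ 4 * (Q / m2 ff (rr k)) := by
    have h3 := m2_ff_upper k
    have h4 := m2_ff_pos k
    rw [← hm] at h3
    have h5 : 2 / m * (2 * Real.pi * Q) = 4 * (Q * (Real.pi / m)) := by ring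
    rw [h5]
    have h6 : Real.pi / m ≤ 1 / m2 ff (rr k) := by
      rw [div_le_div_iff₀ hmpos h4]
      linarith
    have h7 : Q / m2 ff (rr k) = Q * (1 / m2 ff (rr k)) := by ring
    rw [h7]
    have := mul_le_mul_of_nonneg_left h6 hQ0
    linarith
  have h3 : 2 / m * (∫ θ in (0:ℝ)..(2 * Real.pi),
      ‖T (Finset.range D) (fun i => a i * (rr k : ℂ) ^ i) θ‖ ^ 2 * Km k (nn k * θ)) ≤
      2 / m * (2 * Real.pi * Q) := mul_le_mul_of_nonneg_left h1 (by positivity)
  linarith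

/-- the weights -/
noncomputable def ww (k : ℕ) : ℝ := (1 / 2) ^ k / m2 ff (rr k)

theorem ww_pos (k : ℕ) : 0 < ww k := div_pos (by positivity) (m2_ff_pos k)

theorem ww_mul (k : ℕ) : ww k * m2 ff (rr k) = (1 / 2) ^ k := by
  unfold ww
  rw [div_mul_cancel₀ _ (m2_ff_pos k).ne']

theorem ww_le (k : ℕ) : ww k ≤ (1 / 2) ^ k * Real.exp (-((k + 6) * (Ms k + 1))) := by
  unfold ww
  rw [Real.exp_neg, ← div_eq_mul_inv]
  exact div_le_div_of_nonneg_left (by positivity) (Real.exp_pos _) (m2_ff_lower k)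

theorem ww_le' (k : ℕ) : ww k ≤ (1 / 2) ^ k * (1 / 64) := by
  refine (ww_le k).trans ?_
  apply mul_le_mul_of_nonneg_left _ (by positivity)
  rw [Real.exp_neg]
  have h1 : (64 : ℝ) ≤ Real.exp 6 := by
    have h2 : (2 : ℝ) ≤ Real.exp 1 := by
      have := Real.add_one_le_exp (1 : ℝ)
      linarith
    have h3 : Real.exp 6 = Real.exp 1 ^ 6 := by
      rw [← Real.exp_nat_mul]; norm_num
    rw [h3]
    calc (64 : ℝ) = 2 ^ 6 := by norm_num
      _ ≤ _ := pow_le_pow_left₀ (by norm_num) h2 6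
  have h4 : Real.exp 6 ≤ Real.exp ((k + 6) * (Ms k + 1)) := by
    apply Real.exp_le_exp.mpr
    have h5 : (0:ℝ) ≤ Ms k := (Ms k).2
    have h6 : (0:ℝ) ≤ k := Nat.cast_nonneg _
    nlinarith
  rw [one_div]
  exact inv_anti₀ (by norm_num) (h1.trans h4)

/-- the main inequality -/
theorem main_ineq (a : ℕ → ℂ) (D : ℕ) (E : ℝ)
    (hE : ∀ J : ℕ, ∑ k ∈ Finset.range J,
      ww k * m2 (fun z => (∑ i ∈ Finset.range D, a i * z ^ i) * ff z - 1) (rr k) ≤ E) :
    ‖∑ i ∈ Finset.range D, a i * (0:ℂ) ^ i‖ ^ 2 ≤ 8 * E + 1 / 4 := by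
  set A : ℕ → ℝ := fun k => ∑ i ∈ Finset.range D, ‖a i‖ ^ 2 * rr k ^ (2 * i) with hA
  set P : ℂ → ℂ := fun z => ∑ i ∈ Finset.range D, a i * z ^ i with hP
  set G : ℕ → ℝ := fun k => m2 (fun z => P z * ff z - 1) (rr k) with hG
  have hG0 : ∀ k, 0 ≤ G k := fun k => m2_nonneg _ _
  have hpc : Continuous P := by rw [hP]; fun_prop
  have hPf : ContinuousOn (fun z => P z * ff z) (Metric.ball 0 1) :=
    hpc.continuousOn.mul ff_diff.continuousOn
  have hPf1 : ContinuousOn (fun z => P z * ff z - 1) (Metric.ball 0 1) :=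
    hPf.sub continuousOn_const
  have hm2 : ∀ k, m2 (fun z => P z * ff z) (rr k) ≤ 2 * G k + 2 := by
    intro k
    simp only [hG]
    rw [m2_eq, m2_eq]
    have h1 : (∫ θ in (0:ℝ)..(2 * Real.pi), ‖P (rr k * exp (θ * I)) * ff (rr k * exp (θ * I))‖ ^ 2)
        ≤ ∫ θ in (0:ℝ)..(2 * Real.pi),
          (2 * ‖P (rr k * exp (θ * I)) * ff (rr k * exp (θ * I)) - 1‖ ^ 2 + 2) := by
      have hc1 := cont_circle hPf k
      have hc2 := cont_circle hPf1 k
      apply intervalIntegral.integral_mono_on (by positivity)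
      · apply Continuous.intervalIntegrable; fun_prop
      · apply Continuous.intervalIntegrable; fun_prop
      · intro θ _
        set w := P (rr k * exp (θ * I)) * ff (rr k * exp (θ * I)) with hw
        have h2 : ‖w‖ ≤ ‖w - 1‖ + 1 := by
          calc ‖w‖ = ‖(w - 1) + 1‖ := by congr 1; ring
            _ ≤ _ := (norm_add_le _ _).trans (by rw [norm_one])
        nlinarith [norm_nonneg w, norm_nonneg (w - 1), sq_nonneg (‖w - 1‖ - 1)]
    rw [intervalIntegral.integral_add, intervalIntegral.integral_const_mul,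
      intervalIntegral.integral_const, sub_zero, smul_eq_mul] at h1
    · have h2 := mul_le_mul_of_nonneg_left h1 (show (0:ℝ) ≤ (2 * Real.pi)⁻¹ by positivity)
      have h3 : ∀ x : ℝ, (2 * Real.pi)⁻¹ * (2 * x + 2 * Real.pi * 2) =
          2 * ((2 * Real.pi)⁻¹ * x) + 2 := by
        intro x
        have : Real.pi ≠ 0 := Real.pi_ne_zero
        field_simp
      rw [h3] at h2
      exact h2
    · have hc2 := cont_circle hPf1 k
      apply Continuous.intervalIntegrable; fun_prop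
    · apply Continuous.intervalIntegrable; fun_prop
  have hstep : ∀ k, A k ≤ 8 * (2 ^ k * (ww k * G k)) + 8 * (2 ^ k * ww k) + 1 / 4 * A (k + 1) := by
    intro k
    have h1 := level_ff a D k
    have h2 : 1 / m2 ff (rr k) = 2 ^ k * ww k := by
      unfold ww
      rw [one_div, one_div, inv_pow, div_eq_mul_inv, ← mul_assoc, mul_inv_cancel₀ (by positivity),
        one_mul]
    have h3 : m2 (fun z => P z * ff z) (rr k) / m2 ff (rr k) ≤ (2 * G k + 2) * (2 ^ k * ww k) := by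
      rw [← h2, mul_one_div]
      exact div_le_div_of_nonneg_right (hm2 k) (m2_ff_pos k).le
    calc A k ≤ _ := h1
      _ ≤ 4 * ((2 * G k + 2) * (2 ^ k * ww k)) + 1 / 4 * A (k + 1) := by
        have : m2 (fun z => (∑ i ∈ Finset.range D, a i * z ^ i) * ff z) (rr k) / m2 ff (rr k) =
          m2 (fun z => P z * ff z) (rr k) / m2 ff (rr k) := rfl
        rw [this]
        simp only [hA]
        linarith
      _ = _ := by ring
  have hiter : ∀ J : ℕ, A 0 ≤ ∑ k ∈ Finset.range J,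
      (1 / 4) ^ k * (8 * (2 ^ k * (ww k * G k)) + 8 * (2 ^ k * ww k)) + (1 / 4) ^ J * A J := by
    intro J
    induction J with
    | zero => simp
    | succ J ih =>
      rw [Finset.sum_range_succ, pow_succ]
      have h1 := hstep J
      have h2 : (0:ℝ) ≤ (1 / 4) ^ J := by positivity
      have h3 := mul_le_mul_of_nonneg_left h1 h2
      linarith
  have hAJ : ∀ J, A J ≤ ∑ i ∈ Finset.range D, ‖a i‖ ^ 2 := by
    intro J
    refine Finset.sum_le_sum fun i _ => ?_
    have : rr J ^ (2 * i) ≤ 1 := pow_le_one₀ (rr_pos J).le (rr_lt_one J).le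
    have h2 : 0 ≤ ‖a i‖ ^ 2 := by positivity
    nlinarith
  set S := ∑ i ∈ Finset.range D, ‖a i‖ ^ 2 with hS
  have hbound : ∀ J : ℕ, A 0 ≤ 8 * E + 1 / 4 + (1 / 4) ^ J * S := by
    intro J
    refine (hiter J).trans ?_
    have h1 : ∀ k ∈ Finset.range J,
        (1 / 4 : ℝ) ^ k * (8 * (2 ^ k * (ww k * G k)) + 8 * (2 ^ k * ww k)) ≤
        8 * (ww k * G k) + 1 / 8 * (1 / 2) ^ k := by
      intro k _
      have h2 : (1 / 4 : ℝ) ^ k * 2 ^ k = (1 / 2) ^ k := by
        rw [← mul_pow]; norm_num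
      have h3 : (1 / 2 : ℝ) ^ k ≤ 1 := pow_le_one₀ (by norm_num) (by norm_num)
      have h4 : 0 ≤ ww k * G k := mul_nonneg (ww_pos k).le (hG0 k)
      have h5 := ww_le' k
      have h6 := (ww_pos k).le
      have h7 : (0:ℝ) ≤ (1 / 2) ^ k := by positivity
      calc (1 / 4 : ℝ) ^ k * (8 * (2 ^ k * (ww k * G k)) + 8 * (2 ^ k * ww k))
          = 8 * (((1 / 4 : ℝ) ^ k * 2 ^ k) * (ww k * G k)) + 8 * (((1 / 4 : ℝ) ^ k * 2 ^ k) * ww k)
            := by ring
        _ = 8 * ((1 / 2 : ℝ) ^ k * (ww k * G k)) + 8 * ((1 / 2 : ℝ) ^ k * ww k) := by rw [h2]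
        _ ≤ 8 * (1 * (ww k * G k)) + 8 * ((1 / 2 : ℝ) ^ k * (1 / 64)) := by
          have h8 : (1 / 2 : ℝ) ^ k * (ww k * G k) ≤ 1 * (ww k * G k) :=
            mul_le_mul_of_nonneg_right h3 h4
          have h9 : ww k ≤ 1 / 64 := by nlinarith
          have h10 : (1 / 2 : ℝ) ^ k * ww k ≤ (1 / 2 : ℝ) ^ k * (1 / 64) :=
            mul_le_mul_of_nonneg_left h9 h7
          linarith
        _ = _ := by ring
    have h2 := Finset.sum_le_sum h1
    rw [Finset.sum_add_distrib, ← Finset.mul_sum, ← Finset.mul_sum] at h2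
    have h3 : ∑ k ∈ Finset.range J, (1 / 2 : ℝ) ^ k ≤ 2 := by
      have := Summable.sum_le_tsum (Finset.range J) (fun i _ => by positivity)
        (summable_geometric_of_lt_one (r := (1 / 2 : ℝ)) (by norm_num) (by norm_num))
      rw [tsum_geometric_of_lt_one (by norm_num) (by norm_num)] at this
      norm_num at this
      simpa using this
    have h4 := hE J
    have h5 : (1 / 4 : ℝ) ^ J * A J ≤ (1 / 4) ^ J * S :=
      mul_le_mul_of_nonneg_left (hAJ J) (by positivity)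
    have h6 : ∑ k ∈ Finset.range J, ww k * G k ≤ E := h4
    linarith
  have hlim : A 0 ≤ 8 * E + 1 / 4 + 0 := by
    have h1 : Tendsto (fun J : ℕ => 8 * E + 1 / 4 + (1 / 4 : ℝ) ^ J * S) atTop
        (𝓝 (8 * E + 1 / 4 + 0)) := by
      apply Tendsto.const_add
      have := (tendsto_pow_atTop_nhds_zero_of_lt_one (r := (1 / 4 : ℝ)) (by norm_num)
        (by norm_num)).mul_const S
      rwa [zero_mul] at this
    exact ge_of_tendsto' h1 hbound
  rw [add_zero] at hlim
  refine le_trans ?_ hlim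
  rcases Nat.eq_zero_or_pos D with hD | hD
  · subst hD
    simp [hA]
  · have h1 : ∑ i ∈ Finset.range D, a i * (0:ℂ) ^ i = a 0 := by
      rw [Finset.sum_eq_single 0]
      · simp
      · intro b _ hb
        rw [zero_pow hb, mul_zero]
      · intro h; exact absurd (Finset.mem_range.mpr hD) h
    rw [h1]
    simp only [hA]
    calc ‖a 0‖ ^ 2 = ‖a 0‖ ^ 2 * rr 0 ^ (2 * 0) := by simp
      _ ≤ _ := Finset.single_le_sum (f := fun i => ‖a i‖ ^ 2 * rr 0 ^ (2 * i))
        (fun i _ => by have := (rr_pos 0).le; positivity) (Finset.mem_range.mpr hD)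

end H731WI
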