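import Pool.Agent.H731_WI.Circle

/-!
The Laplace principle for the weights `exp (2 U cos φ ± ...)`.
-/

namespace H731WI

open MeasureTheory Complex Filter Topology

/-- the weight -/
noncomputable def Kw (U : ℕ) (c d : ℝ) (φ : ℝ) : ℝ :=
  Real.exp (2 * Real.cos φ) ^ U * Real.exp (c * ‖1 - exp (φ * I)‖ + d)

theorem Kw_cont (U : ℕ) (c d : ℝ) : Continuous (Kw U c d) := by
  unfold Kw; fun_prop

theorem Kw_pos (U : ℕ) (c d : ℝ) (φ : ℝ) : 0 < Kw U c d φ := by
  unfold Kw; positivity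

theorem Kw_per (U : ℕ) (c d : ℝ) : Function.Periodic (Kw U c d) (2 * Real.pi) := by
  intro φ
  unfold Kw
  rw [Real.cos_add_two_pi]
  have : exp (((φ + 2 * Real.pi : ℝ) : ℂ) * I) = exp (φ * I) := by
    rw [Complex.exp_eq_exp_iff_exists_int]
    exact ⟨1, by push_cast; ring⟩
  rw [this]

theorem laplace_tendsto (c d : ℝ) :
    Tendsto (fun U : ℕ => (∫ φ in (-Real.pi)..Real.pi, Kw U 0 0 φ)⁻¹ *
      ∫ φ in (-Real.pi)..Real.pi, Kw U c d φ) atTop (𝓝 (Real.exp d)) := by
  have h := tendsto_setIntegral_pow_smul_of_unique_maximum_of_isCompact_of_continuousOn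
    (μ := (volume : Measure ℝ)) (s := Set.Icc (-Real.pi) Real.pi) (x₀ := (0 : ℝ)) isCompact_Icc
    (c := fun φ => Real.exp (2 * Real.cos φ)) (g := fun φ => Real.exp (c * ‖1 - exp (φ * I)‖ + d))
    (by fun_prop) ?_ (fun _ _ => (Real.exp_pos _).le) (Real.exp_pos _) ?_ (by fun_prop)
  · simp only [ofReal_zero, zero_mul, Complex.exp_zero, sub_self, norm_zero, mul_zero, zero_add,
      smul_eq_mul] at h
    refine h.congr fun U => ?_
    rw [intervalIntegral.integral_of_le (by linarith [Real.pi_pos]),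
      intervalIntegral.integral_of_le (by linarith [Real.pi_pos]),
      ← integral_Icc_eq_integral_Ioc, ← integral_Icc_eq_integral_Ioc]
    simp [Kw]
  · intro y hy hy0
    apply Real.exp_lt_exp.mpr
    rw [Real.cos_zero]
    have : Real.cos y < 1 := by
      rcases lt_or_eq_of_le (Real.cos_le_one y) with h | h
      · exact h
      · exfalso
        apply hy0
        rw [Real.cos_eq_one_iff_of_lt_of_lt] at h
        · exact h
        · linarith [hy.1, Real.pi_pos]
        · linarith [hy.2, Real.pi_pos]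
    linarith
  · rw [interior_Icc, closure_Ioo (by linarith [Real.pi_pos])]
    exact ⟨by linarith [Real.pi_pos], Real.pi_pos.le⟩

theorem int_shift {K : ℝ → ℝ} (hper : Function.Periodic K (2 * Real.pi)) :
    ∫ φ in (0:ℝ)..(2 * Real.pi), K φ = ∫ φ in (-Real.pi)..Real.pi, K φ := by
  have := hper.intervalIntegral_add_eq 0 (-Real.pi)
  rw [zero_add] at this
  rw [this]
  congr 1
  ring

theorem int_ge (U : ℕ) {c d : ℝ} (hc : c ≤ 0) :
    2 ^ U * Real.exp (2 * c + d) ≤ ∫ φ in (-Real.pi)..Real.pi, Kw U c d φ := by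
  have hpi := Real.pi_pos
  have h3 : ∀ φ ∈ Set.Icc (-(Real.pi / 3)) (Real.pi / 3),
      2 ^ U * Real.exp (2 * c + d) ≤ Kw U c d φ := by
    intro φ hφ
    unfold Kw
    have h1 : (1 / 2 : ℝ) ≤ Real.cos φ := by
      rw [← Real.cos_pi_div_three, ← Real.cos_abs φ]
      apply Real.cos_le_cos_of_nonneg_of_le_pi (abs_nonneg _) (by linarith)
      exact abs_le.mpr hφ
    have h2 : (2 : ℝ) ≤ Real.exp (2 * Real.cos φ) := by
      have := Real.add_one_le_exp (2 * Real.cos φ)
      linarith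
    apply mul_le_mul
    · exact pow_le_pow_left₀ (by norm_num) h2 _
    · apply Real.exp_le_exp.mpr
      have : ‖1 - exp (φ * I)‖ ≤ 2 := by
        refine (norm_sub_le _ _).trans ?_
        rw [Complex.norm_exp_ofReal_mul_I, norm_one]
        norm_num
      nlinarith
    · positivity
    · positivity
  have h4 : ∫ φ in (-(Real.pi / 3))..(Real.pi / 3), (2 ^ U * Real.exp (2 * c + d) : ℝ) ≤
      ∫ φ in (-(Real.pi / 3))..(Real.pi / 3), Kw U c d φ := by
    apply intervalIntegral.integral_mono_on (by linarith)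
    · exact continuous_const.intervalIntegrable _ _
    · exact (Kw_cont U c d).intervalIntegrable _ _
    · exact h3
  rw [intervalIntegral.integral_const, smul_eq_mul] at h4
  have h5 : ∫ φ in (-(Real.pi / 3))..(Real.pi / 3), Kw U c d φ ≤
      ∫ φ in (-Real.pi)..Real.pi, Kw U c d φ := by
    apply intervalIntegral.integral_mono_interval (by linarith) (by linarith) (by linarith)
    · exact Eventually.of_forall fun φ => (Kw_pos U c d φ).le
    · exact (Kw_cont U c d).intervalIntegrable _ _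
  have h6 : 0 ≤ 2 ^ U * Real.exp (2 * c + d) := by positivity
  have h7 : (1 : ℝ) ≤ Real.pi / 3 - -(Real.pi / 3) := by linarith [Real.pi_gt_three]
  nlinarith

theorem exists_U (M B : ℝ) (hM : 0 ≤ M) : ∃ U : ℕ,
    (∫ φ in (0:ℝ)..(2 * Real.pi), Kw U (2 * M) (1 / 10) φ) ≤
      2 * (∫ φ in (0:ℝ)..(2 * Real.pi), Kw U (-(2 * M)) (-(1 / 10)) φ) ∧
    B ≤ ∫ φ in (0:ℝ)..(2 * Real.pi), Kw U (-(2 * M)) (-(1 / 10)) φ := by
  have h1 := laplace_tendsto (2 * M) (1 / 10)
  have h2 := laplace_tendsto (-(2 * M)) (-(1 / 10))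
  have he1 : Real.exp (1 / 10) < 5 / 4 := by
    have h := Real.exp_bound' (x := 1 / 10) (by norm_num) (by norm_num) (n := 2) (by norm_num)
    refine lt_of_le_of_lt h ?_
    norm_num [Finset.sum_range_succ, Nat.factorial]
  have he2 : (4 / 5 : ℝ) < Real.exp (-(1 / 10)) := by
    have := Real.add_one_le_exp (-(1 / 10) : ℝ)
    linarith
  have h3 : ∀ᶠ U : ℕ in atTop, (∫ φ in (-Real.pi)..Real.pi, Kw U 0 0 φ)⁻¹ *
      ∫ φ in (-Real.pi)..Real.pi, Kw U (2 * M) (1 / 10) φ < 5 / 4 := h1.eventually_lt_const he1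
  have h4 : ∀ᶠ U : ℕ in atTop, 4 / 5 < (∫ φ in (-Real.pi)..Real.pi, Kw U 0 0 φ)⁻¹ *
      ∫ φ in (-Real.pi)..Real.pi, Kw U (-(2 * M)) (-(1 / 10)) φ := h2.eventually_const_lt he2
  have h5 : ∀ᶠ U : ℕ in atTop, B ≤ 2 ^ U * Real.exp (2 * (-(2 * M)) + (-(1 / 10))) := by
    have : Tendsto (fun U : ℕ => (2 : ℝ) ^ U * Real.exp (2 * (-(2 * M)) + (-(1 / 10)))) atTop
        atTop :=
      (tendsto_pow_atTop_atTop_of_one_lt (by norm_num)).atTop_mul_const (Real.exp_pos _)
    exact this.eventually_ge_atTop B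
  obtain ⟨U, hU3, hU4, hU5⟩ := (h3.and (h4.and h5)).exists
  refine ⟨U, ?_, ?_⟩
  · rw [int_shift (Kw_per _ _ _), int_shift (Kw_per _ _ _)]
    have hpos : 0 < ∫ φ in (-Real.pi)..Real.pi, Kw U 0 0 φ := by
      have := int_ge U (c := 0) (d := 0) le_rfl
      refine lt_of_lt_of_le ?_ this
      positivity
    rw [inv_mul_lt_iff₀ hpos] at hU3
    rw [lt_inv_mul_iff₀ hpos] at hU4
    linarith
  · rw [int_shift (Kw_per _ _ _)]
    exact hU5.trans (int_ge U (by linarith))

end H731WI
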